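import Mathlib
import Pool.Agent.Lib.MP_d9fe16_an.Chain

set_option autoImplicit false

namespace Pool.Agent.Results.MP_d9fe16_an.NotExtreme

open Pool.Agent.Lib.MP_d9fe16_an Filter Topology

/-- The open unit bidisc. -/
def bidisc : Set (ℂ × ℂ) := {z | ‖z.1‖ < 1 ∧ ‖z.2‖ < 1}

/-- Normal Loewner chains on the bidisc; `f t` is the map at time `t`. -/
def IsNormalLoewnerChain (f : ℝ → ℂ × ℂ → ℂ × ℂ) : Prop :=
  (∀ t : ℝ, 0 ≤ t → DifferentiableOn ℂ (f t) bidisc ∧ Set.InjOn (f t) bidisc ∧ f t 0 = 0 ∧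
    HasFDerivAt (f t) ((Real.exp t : ℂ) • ContinuousLinearMap.id ℂ (ℂ × ℂ)) 0) ∧
  (∀ s t : ℝ, 0 ≤ s → s ≤ t → f s '' bidisc ⊆ f t '' bidisc) ∧
  (∀ τ : ℕ → ℝ, (∀ n, 0 ≤ τ n) → ∃ (φ : ℕ → ℕ) (G : ℂ × ℂ → ℂ × ℂ), StrictMono φ ∧
    TendstoLocallyUniformlyOn (fun n z => (Real.exp (-τ (φ n)) : ℂ) • f (τ (φ n)) z) G
      Filter.atTop bidisc)

theorem bidisc_eq : bidisc = Metric.ball 0 1 := by
  ext z
  simp [bidisc, Prod.norm_def]

/-- The explicit chain. -/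
noncomputable def chain (M η t : ℝ) (z : ℂ × ℂ) : ℂ × ℂ :=
  ((Real.exp t / min (Real.exp t) M : ℝ) : ℂ) • GG M η (min (Real.exp t) M) z

theorem chain_of_le {M η t : ℝ} (h : Real.exp t ≤ M) (z : ℂ × ℂ) :
    chain M η t z = GG M η (Real.exp t) z := by
  rw [chain, min_eq_left h, div_self (Real.exp_pos t).ne']
  simp

theorem chain_of_ge {M η t : ℝ} (hM : 1 < M) (h : M ≤ Real.exp t) (z : ℂ × ℂ) :
    chain M η t z = (Real.exp t : ℂ) • z := by
  rw [chain, min_eq_right h, GG_top, smul_smul]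
  congr 1
  have : (M : ℂ) ≠ 0 := by exact_mod_cast (by linarith : M ≠ 0)
  push_cast
  field_simp

theorem smul_nested {a b : ℝ} (ha : 0 < a) (hab : a ≤ b) {z : ℂ × ℂ} (hz : z ∈ bidisc) :
    ∃ z' ∈ bidisc, (b : ℂ) • z' = (a : ℂ) • z := by
  have hb : 0 < b := by linarith
  have hbc : (b : ℂ) ≠ 0 := by exact_mod_cast hb.ne'
  refine ⟨((a / b : ℝ) : ℂ) • z, ?_, ?_⟩
  · rw [bidisc_eq, mem_ball_zero_iff] at hz ⊢
    rw [norm_smul, Complex.norm_real, Real.norm_eq_abs, abs_of_pos (div_pos ha hb)]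
    have : a / b ≤ 1 := (div_le_one hb).mpr hab
    nlinarith [norm_nonneg z]
  · rw [smul_smul]
    congr 1
    push_cast
    field_simp

theorem chain_normal {M η : ℝ} (hM : 1 < M) (hη : |η| * (100 * M ^ 8) ≤ 1) :
    IsNormalLoewnerChain (chain M η) := by
  have hlev : ∀ t : ℝ, 0 ≤ t → 1 ≤ min (Real.exp t) M := fun t ht =>
    le_min (Real.one_le_exp ht) hM.le
  refine ⟨fun t ht => ⟨?_, ?_, ?_, ?_⟩, fun s t hs hst => ?_, fun τ hτ => ?_⟩
  · intro z hz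
    exact ((GG_diffAt hM hη (hlev t ht) (min_le_right _ _) hz.2.le).const_smul
      ((Real.exp t / min (Real.exp t) M : ℝ) : ℂ)).differentiableWithinAt
  · intro z _ z' _ h
    have h0 : 0 < min (Real.exp t) M := by linarith [hlev t ht]
    have hc : ((Real.exp t / min (Real.exp t) M : ℝ) : ℂ) ≠ 0 := by
      exact_mod_cast (div_pos (Real.exp_pos t) h0).ne'
    exact GG_inj h0.ne' (smul_right_injective _ hc h)
  · simp [chain, GG_zero]
  · have h0 : 0 < min (Real.exp t) M := by linarith [hlev t ht]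
    have hc : ((min (Real.exp t) M : ℝ) : ℂ) ≠ 0 := by exact_mod_cast h0.ne'
    refine HasFDerivAt.congr_fderiv ((GG_fderiv hM hη (hlev t ht) (min_le_right _ _)).const_smul
      ((Real.exp t / min (Real.exp t) M : ℝ) : ℂ)) ?_
    rw [smul_smul, Complex.ofReal_div, div_mul_cancel₀ _ hc]
  · rintro _ ⟨z, hz, rfl⟩
    have hexp : Real.exp s ≤ Real.exp t := Real.exp_le_exp.mpr hst
    rcases le_total (Real.exp t) M with h | h
    · obtain ⟨z', h1, h2, h3⟩ := GG_nested hM hη (Real.one_le_exp hs) hexp h hz.1 hz.2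
      exact ⟨z', ⟨h1, h2⟩, by rw [chain_of_le h, chain_of_le (hexp.trans h), h3]⟩
    · rcases le_total (Real.exp s) M with h' | h'
      · obtain ⟨z', h1, h2, h3⟩ := GG_nested hM hη (Real.one_le_exp hs) h' le_rfl hz.1 hz.2
        obtain ⟨z'', h4, h5⟩ := smul_nested (by linarith) h (z := z') ⟨h1, h2⟩
        exact ⟨z'', h4, by rw [chain_of_ge hM h, chain_of_le h', ← h3, GG_top, h5]⟩
      · obtain ⟨z'', h4, h5⟩ := smul_nested (Real.exp_pos s) hexp hz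
        exact ⟨z'', h4, by rw [chain_of_ge hM h, chain_of_ge hM h', h5]⟩
  · obtain ⟨x, hx, φ, hφ, hlim⟩ := (isCompact_Icc (a := (1 : ℝ)) (b := M)).tendsto_subseq
      (x := fun n => min (Real.exp (τ n)) M) fun n => ⟨hlev _ (hτ n), min_le_right _ _⟩
    refine ⟨φ, fun z => ((x : ℂ))⁻¹ • GG M η x z, hφ, ?_⟩
    have hU := ((isCompact_Icc (a := (1 : ℝ)) (b := M)).prod
      (isCompact_closedBall (0 : ℂ × ℂ) 1)).uniformContinuousOn_of_continuous (GG_contOn hM hη)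
    have h1 := UniformContinuousOn.tendstoUniformlyOn
      (F := fun (x : ℝ) (z : ℂ × ℂ) => ((x : ℂ))⁻¹ • GG M η x z) hU hx
    have h2 : Tendsto (fun n => min (Real.exp (τ (φ n))) M) atTop (𝓝[Set.Icc 1 M] x) :=
      tendsto_nhdsWithin_iff.mpr ⟨hlim, Eventually.of_forall fun n =>
        ⟨hlev _ (hτ _), min_le_right _ _⟩⟩
    have h3 : TendstoUniformlyOn (fun n z => ((min (Real.exp (τ (φ n))) M : ℝ) : ℂ)⁻¹ •
        GG M η (min (Real.exp (τ (φ n))) M) z) (fun z => ((x : ℂ))⁻¹ • GG M η x z) atTop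
        (Metric.closedBall 0 1) := fun u hu => h2.eventually (h1 u hu)
    have h4 := (h3.mono (bidisc_eq ▸ Metric.ball_subset_closedBall)).tendstoLocallyUniformlyOn
    convert h4 using 3 with n z
    rw [chain, smul_smul]
    congr 1
    have : ((Real.exp (τ (φ n)) : ℝ) : ℂ) ≠ 0 := by exact_mod_cast (Real.exp_pos _).ne'
    rw [Real.exp_neg, Complex.ofReal_inv, Complex.ofReal_div]
    field_simp

theorem chain_bound {M η : ℝ} (hM : 1 < M) (hη : |η| * (100 * M ^ 8) ≤ 1) {z : ℂ × ℂ}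
    (hz : z ∈ bidisc) : max ‖(chain M η 0 z).1‖ ‖(chain M η 0 z).2‖ ≤ M := by
  obtain ⟨z', h1, h2, h3⟩ := GG_nested hM hη le_rfl hM.le le_rfl hz.1 hz.2
  rw [chain_of_le (by simpa using hM.le), Real.exp_zero, ← h3, GG_top]
  have hM0 : 0 < M := by linarith
  simp only [Prod.smul_fst, Prod.smul_snd, smul_eq_mul, norm_mul, Complex.norm_real,
    Real.norm_eq_abs, abs_of_pos hM0]
  apply max_le <;> nlinarith

theorem result (M : ℝ) (hM : 1 < M) :
    ∃ f g : ℝ → ℂ × ℂ → ℂ × ℂ, IsNormalLoewnerChain f ∧ IsNormalLoewnerChain g ∧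
      (∀ z ∈ bidisc, max ‖(f 0 z).1‖ ‖(f 0 z).2‖ ≤ M ∧ max ‖(g 0 z).1‖ ‖(g 0 z).2‖ ≤ M) ∧
      (∀ z ∈ bidisc, f (Real.log M) z = (M : ℂ) • z ∧ g (Real.log M) z = (M : ℂ) • z) ∧
      (∃ z ∈ bidisc, f 0 z ≠ g 0 z) ∧
      ∀ z ∈ bidisc, ((z.1 + (1 - 1 / (M : ℂ)) * z.2 ^ 2, z.2) : ℂ × ℂ) =
        (1 / 2 : ℂ) • f 0 z + (1 / 2 : ℂ) • g 0 z := by
  have hM0 : 0 < M := by linarith
  set η : ℝ := 1 / (100 * M ^ 8) with hηdef
  have hηpos : 0 < η := by positivity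
  have hη : |η| * (100 * M ^ 8) ≤ 1 := by
    rw [abs_of_pos hηpos, hηdef]
    field_simp
    rfl
  have hη' : |-η| * (100 * M ^ 8) ≤ 1 := by rwa [abs_neg]
  have h0 : ∀ (e : ℝ) (z : ℂ × ℂ), chain M e 0 z = GG M e 1 z := fun e z => by
    rw [chain_of_le (by simpa using hM.le), Real.exp_zero]
  refine ⟨chain M η, chain M (-η), chain_normal hM hη, chain_normal hM hη',
    fun z hz => ⟨chain_bound hM hη hz, chain_bound hM hη' hz⟩, fun z _ => ?_, ?_, fun z _ => ?_⟩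
  · rw [chain_of_ge hM (Real.exp_log hM0).ge, chain_of_ge hM (Real.exp_log hM0).ge,
      Real.exp_log hM0]
    exact ⟨rfl, rfl⟩
  · refine ⟨(0, 1 / 2), ⟨by simp, by norm_num⟩, ?_⟩
    rw [h0, h0, GG_one, GG_one]
    intro h
    have h1 := congrArg Prod.fst h
    have h2 : ((η * (M - 1) ^ 3 : ℝ) : ℂ) = 0 := by
      simp only at h1
      push_cast at h1 ⊢
      linear_combination 48 * h1
    have h3 : η * (M - 1) ^ 3 = 0 := by exact_mod_cast h2
    have h4 : 0 < η * (M - 1) ^ 3 := mul_pos hηpos (pow_pos (by linarith) 3)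
    linarith
  · rw [h0, h0, GG_one, GG_one]
    ext
    · simp only [Prod.fst_add, Prod.smul_fst, smul_eq_mul]
      push_cast
      ring
    · simp only [Prod.snd_add, Prod.smul_snd, smul_eq_mul]
      ring

end Pool.Agent.Results.MP_d9fe16_an.NotExtreme
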